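import Pool.Agent.T9h85.DO.Prob

/-! # The two-step sieve for sets uniformly distributed modulo the integers coprime to `W` -/

set_option autoImplicit false

namespace Pool.Agent.T9h85.DO

open Finset Filter Topology

/-- the members of `A` are uniformly distributed modulo all integers coprime to `W` -/
def EqW (W : ℕ) (A : Set ℕ) : Prop := ∀ q : ℕ, 1 ≤ q → q.Coprime W → ∀ ρ : ℕ,
  Tendsto (fun X => freq (up A X) {n | n % q = ρ % q}) atTop (𝓝 (1 / (q : ℝ)))

variable {W : ℕ} {A : Set ℕ}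

theorem EqW.nonempty (hA : EqW W A) : ∀ᶠ X in atTop, (up A X).Nonempty := by
  have h := hA 1 le_rfl (Nat.coprime_one_left W) 0
  have h1 : (1 / 2 : ℝ) < 1 / ((1 : ℕ) : ℝ) := by norm_num
  filter_upwards [h.eventually_const_lt h1] with X hX
  by_contra hne
  rw [not_nonempty_iff_eq_empty] at hne
  rw [hne] at hX
  unfold freq at hX
  simp at hX
  linarith

theorem EqW.dvd (hA : EqW W A) {a : ℕ} (ha : 1 ≤ a) (haW : a.Coprime W) :
    Tendsto (fun X => freq (up A X) {n | a ∣ n}) atTop (𝓝 (1 / (a : ℝ))) := by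
  have h := hA a ha haW 0
  have : {n : ℕ | n % a = 0 % a} = {n | a ∣ n} := by
    ext n
    simp only [Set.mem_ofPred_eq, Nat.zero_mod]
    exact (Nat.dvd_iff_mod_eq_zero).symm
  rwa [this] at h

theorem exists_large {Ps : Set ℕ}
    (hdiv : ¬ Summable (fun n : ℕ => Ps.indicator (fun n : ℕ => (1 : ℝ) / n) n)) (C : ℝ) :
    ∃ y : ℕ, C ≤ ∑ p ∈ range y, Ps.indicator (fun n : ℕ => (1 : ℝ) / n) p := by
  have hnn : ∀ p : ℕ, 0 ≤ Ps.indicator (fun n : ℕ => (1 : ℝ) / n) p := by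
    intro p
    apply Set.indicator_nonneg
    intro _ _
    positivity
  have ht := (not_summable_iff_tendsto_nat_atTop_of_nonneg hnn).mp hdiv
  exact (ht.eventually_ge_atTop _).exists

theorem hitW (hA : EqW W A) (Ps : Set ℕ) (hPs : ∀ p ∈ Ps, p.Prime ∧ p.Coprime W)
    (hdiv : ¬ Summable (fun n : ℕ => Ps.indicator (fun n : ℕ => (1 : ℝ) / n) n))
    (c : ℕ → ℕ) {ε : ℝ} (hε : 0 < ε) :
    ∃ y : ℕ, ∀ᶠ X in atTop, freq (up A X) {n | ∀ p ∈ Ps, p < y → n % p ≠ c p % p} ≤ ε := by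
  classical
  obtain ⟨y, hy⟩ := exists_large hdiv (1 / ε + 1)
  set I : Finset ℕ := (range y).filter (fun p => p ∈ Ps) with hI
  have hsum : 1 / ε < ∑ p ∈ I, 1 / (p : ℝ) := by
    rw [hI, sum_filter]
    refine lt_of_lt_of_le (by linarith) (hy.trans (le_of_eq (sum_congr rfl fun p _ => ?_)))
    by_cases h : p ∈ Ps
    · rw [Set.indicator_of_mem h, if_pos h]
    · rw [Set.indicator_of_notMem h, if_neg h]
  have hIm : ∀ p ∈ I, p < y ∧ p ∈ Ps := by
    intro p hp
    rw [hI, mem_filter, mem_range] at hp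
    exact hp
  refine ⟨y, ?_⟩
  have key := none_small (S := fun X => up A X) I (fun p => {n | n % p = c p % p})
    (fun p => 1 / (p : ℝ))
    (fun p hp => hA p (hPs p (hIm p hp).2).1.pos (hPs p (hIm p hp).2).2 (c p))
    (fun p hp p' hp' hne => by
      have h1 := hPs p (hIm p hp).2
      have h2 := hPs p' (hIm p' hp').2
      have hcop : p.Coprime p' := (Nat.coprime_primes h1.1 h2.1).2 hne
      obtain ⟨ρ, hρ1, hρ2⟩ := Nat.chineseRemainder hcop (c p) (c p')
      have h3 := hA (p * p') (Nat.mul_pos h1.1.pos h2.1.pos) (Nat.Coprime.mul_left h1.2 h2.2) ρ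
      have h4 : ({n | n % p = c p % p} ∩ {n | n % p' = c p' % p'} : Set ℕ) =
          {n | n % (p * p') = ρ % (p * p')} := by
        ext n
        simp only [Set.mem_inter_iff, Set.mem_ofPred_eq]
        constructor
        · rintro ⟨a1, a2⟩
          exact (Nat.modEq_and_modEq_iff_modEq_mul hcop).1
            ⟨(show n ≡ c p [MOD p] from a1).trans hρ1.symm,
              (show n ≡ c p' [MOD p'] from a2).trans hρ2.symm⟩
        · intro a
          obtain ⟨a1, a2⟩ := (Nat.modEq_and_modEq_iff_modEq_mul hcop).2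
            (show n ≡ ρ [MOD p * p'] from a)
          exact ⟨a1.trans hρ1, a2.trans hρ2⟩
      rw [h4]
      have h5 : (1 : ℝ) / p * (1 / p') = 1 / ((p * p' : ℕ) : ℝ) := by
        push_cast
        rw [div_mul_div_comm, one_mul]
      rw [h5]
      exact h3) hA.nonempty hε hsum
  filter_upwards [key] with X hX
  refine (freq_mono ?_).trans hX
  intro n _ hn p hp
  exact hn p (hIm p hp).2 (hIm p hp).1

/-- `r` divides `n` exactly once -/
def Once (r n : ℕ) : Prop := r ∣ n ∧ ¬ r ^ 2 ∣ n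

theorem ind_once (r n : ℕ) : {n | Once r n}.indicator (fun _ => (1 : ℝ)) n =
    {n | r ∣ n}.indicator (fun _ => (1 : ℝ)) n - {n | r ^ 2 ∣ n}.indicator (fun _ => (1 : ℝ)) n := by
  by_cases h1 : r ∣ n
  · by_cases h2 : r ^ 2 ∣ n
    · simp [Once, h1, h2]
    · simp [Once, h1, h2]
  · have h2 : ¬ r ^ 2 ∣ n := fun h => h1 ((Dvd.intro_left r (by ring) : r ∣ r ^ 2).trans h)
    simp [Once, h1, h2]

theorem ind_inter (B C : Set ℕ) (n : ℕ) : (B ∩ C).indicator (fun _ => (1 : ℝ)) n =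
    B.indicator (fun _ => (1 : ℝ)) n * C.indicator (fun _ => (1 : ℝ)) n := by
  by_cases h1 : n ∈ B <;> by_cases h2 : n ∈ C <;> simp [h1, h2]

theorem ind_mul {a b : ℕ} (hab : a.Coprime b) (n : ℕ) :
    {n | a ∣ n}.indicator (fun _ => (1 : ℝ)) n * {n | b ∣ n}.indicator (fun _ => (1 : ℝ)) n =
      {n | a * b ∣ n}.indicator (fun _ => (1 : ℝ)) n := by
  have : {n | a * b ∣ n} = ({n | a ∣ n} ∩ {n | b ∣ n} : Set ℕ) := by
    ext n
    simp only [Set.mem_ofPred_eq, Set.mem_inter_iff]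
    exact ⟨fun h => ⟨(Dvd.intro _ rfl).trans h, (Dvd.intro_left _ rfl).trans h⟩,
      fun h => hab.mul_dvd_of_dvd_of_dvd h.1 h.2⟩
  rw [this, ind_inter]

theorem freq_once (S : Finset ℕ) (r : ℕ) :
    freq S {n | Once r n} = freq S {n | r ∣ n} - freq S {n | r ^ 2 ∣ n} := by
  rw [freq_eq, freq_eq, freq_eq, ← sub_div, ← sum_sub_distrib]
  congr 1
  exact sum_congr rfl fun n _ => ind_once r n

theorem freq_once_inter (S : Finset ℕ) {r r' : ℕ} (h : r.Coprime r') :
    freq S ({n | Once r n} ∩ {n | Once r' n}) =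
      freq S {n | r * r' ∣ n} - freq S {n | r ^ 2 * r' ∣ n} - freq S {n | r * r' ^ 2 ∣ n} +
        freq S {n | r ^ 2 * r' ^ 2 ∣ n} := by
  rw [freq_eq, freq_eq, freq_eq, freq_eq, freq_eq, ← sub_div, ← sub_div, ← add_div,
    ← sum_sub_distrib, ← sum_sub_distrib, ← sum_add_distrib]
  congr 1
  refine sum_congr rfl fun n _ => ?_
  rw [ind_inter, ind_once, ind_once, ← ind_mul h, ← ind_mul (h.pow_left 2),
    ← ind_mul (h.pow_right 2), ← ind_mul ((h.pow_left 2).pow_right 2)]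
  ring

/-- almost all members are divisible exactly once by a prime of the set -/
theorem onceW (hA : EqW W A) (Ps : Set ℕ) (hPs : ∀ p ∈ Ps, p.Prime ∧ p.Coprime W)
    (hdiv : ¬ Summable (fun n : ℕ => Ps.indicator (fun n : ℕ => (1 : ℝ) / n) n)) :
    Null A {n | ¬ ∃ r ∈ Ps, Once r n} := by
  classical
  intro ε hε
  obtain ⟨y, hy⟩ := exists_large hdiv (2 * (1 / ε + 1))
  set I : Finset ℕ := (range y).filter (fun p => p ∈ Ps) with hI
  have hIm : ∀ p ∈ I, p < y ∧ p ∈ Ps := by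
    intro p hp
    rw [hI, mem_filter, mem_range] at hp
    exact hp
  have hsum : 1 / ε < ∑ p ∈ I, (1 / (p : ℝ) - 1 / (p : ℝ) ^ 2) := by
    have h1 : ∀ p ∈ I, 1 / (p : ℝ) / 2 ≤ 1 / (p : ℝ) - 1 / (p : ℝ) ^ 2 := by
      intro p hp
      have h2 : (2 : ℝ) ≤ p := by exact_mod_cast (hPs p (hIm p hp).2).1.two_le
      have h3 : (0 : ℝ) < p := by linarith
      have h4 : 1 / (p : ℝ) ≤ 1 / 2 := one_div_le_one_div_of_le (by norm_num) h2
      have h5 : 1 / (p : ℝ) ^ 2 = 1 / (p : ℝ) * (1 / p) := by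
        rw [div_mul_div_comm, one_mul, sq]
      have h6 : 0 < 1 / (p : ℝ) := by positivity
      rw [h5]
      nlinarith
    refine lt_of_lt_of_le ?_ (sum_le_sum h1)
    rw [← sum_div, hI, sum_filter]
    have h7 : ∑ p ∈ range y, Ps.indicator (fun n : ℕ => (1 : ℝ) / n) p =
        ∑ p ∈ range y, if p ∈ Ps then 1 / (p : ℝ) else 0 := by
      refine sum_congr rfl fun p _ => ?_
      by_cases h : p ∈ Ps
      · rw [Set.indicator_of_mem h, if_pos h]
      · rw [Set.indicator_of_notMem h, if_neg h]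
    rw [h7] at hy
    linarith
  have key := none_small (S := fun X => up A X) I (fun p => {n | Once p n})
    (fun p => 1 / (p : ℝ) - 1 / (p : ℝ) ^ 2)
    (fun p hp => by
      have h1 := hPs p (hIm p hp).2
      simp only [freq_once]
      have h2 := hA.dvd (Nat.one_le_pow 2 p h1.1.pos) (h1.2.pow_left 2)
      push_cast at h2
      exact (hA.dvd h1.1.pos h1.2).sub h2)
    (fun p hp p' hp' hne => by
      have h1 := hPs p (hIm p hp).2
      have h2 := hPs p' (hIm p' hp').2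
      have hcop : p.Coprime p' := (Nat.coprime_primes h1.1 h2.1).2 hne
      simp only [freq_once_inter _ hcop]
      have b1 : 1 ≤ p := h1.1.pos
      have b2 : 1 ≤ p' := h2.1.pos
      have a1 := hA.dvd (Nat.mul_pos b1 b2) (Nat.Coprime.mul_left h1.2 h2.2)
      have a2 := hA.dvd (a := p ^ 2 * p') (Nat.mul_pos (pow_pos b1 2) b2)
        (Nat.Coprime.mul_left (h1.2.pow_left 2) h2.2)
      have a3 := hA.dvd (a := p * p' ^ 2) (Nat.mul_pos b1 (pow_pos b2 2))
        (Nat.Coprime.mul_left h1.2 (h2.2.pow_left 2))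
      have a4 := hA.dvd (a := p ^ 2 * p' ^ 2) (Nat.mul_pos (pow_pos b1 2) (pow_pos b2 2))
        (Nat.Coprime.mul_left (h1.2.pow_left 2) (h2.2.pow_left 2))
      have h5 : (1 / (p : ℝ) - 1 / (p : ℝ) ^ 2) * (1 / (p' : ℝ) - 1 / (p' : ℝ) ^ 2) =
          1 / ((p * p' : ℕ) : ℝ) - 1 / ((p ^ 2 * p' : ℕ) : ℝ) - 1 / ((p * p' ^ 2 : ℕ) : ℝ) +
            1 / ((p ^ 2 * p' ^ 2 : ℕ) : ℝ) := by
        have c1 : (p : ℝ) ≠ 0 := by exact_mod_cast h1.1.ne_zero
        have c2 : (p' : ℝ) ≠ 0 := by exact_mod_cast h2.1.ne_zero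
        push_cast
        field_simp
        ring
      rw [h5]
      exact ((a1.sub a2).sub a3).add a4) hA.nonempty hε hsum
  filter_upwards [key] with X hX
  refine (freq_mono ?_).trans hX
  intro n _ hn p hp hcon
  exact hn ⟨p, (hIm p hp).2, hcon⟩

/-- **the two-step sieve** -/
theorem two_stepW (hA : EqW W A) (Ps : Set ℕ) (hPs : ∀ p ∈ Ps, p.Prime ∧ p.Coprime W)
    (hdiv : ¬ Summable (fun n : ℕ => Ps.indicator (fun n : ℕ => (1 : ℝ) / n) n))
    (c : ℕ → ℕ) (R : ℕ → Set ℕ) (hR : ∀ q ∈ Ps, ∀ r ∈ R q, r.Prime ∧ r.Coprime W)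
    (hRdiv : ∀ q ∈ Ps, ¬ Summable (fun n : ℕ => (R q).indicator (fun n : ℕ => (1 : ℝ) / n) n)) :
    Null A {n | ¬ ∃ q ∈ Ps, n % q = c q % q ∧ ∃ r ∈ R q, Once r n} := by
  classical
  intro ε hε
  obtain ⟨y, h1⟩ := hitW hA Ps hPs hdiv c (ε := ε / 2) (by positivity)
  have hBn : ∀ q, Null A (if q ∈ Ps then {n | ¬ ∃ r ∈ R q, Once r n} else ∅) := by
    intro q
    by_cases hq : q ∈ Ps
    · rw [if_pos hq]
      exact onceW hA (R q) (hR q hq) (hRdiv q hq)
    · rw [if_neg hq]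
      exact null_empty A
  have h2 := null_upTo hBn y (ε / 2) (by positivity)
  filter_upwards [h1, h2] with X a1 a2
  refine (freq_mono (B := {n | ∀ p ∈ Ps, p < y → n % p ≠ c p % p} ∪
    {n | ∃ i ≤ y, n ∈ (if i ∈ Ps then {n | ¬ ∃ r ∈ R i, Once r n} else ∅ : Set ℕ)}) ?_).trans
    ((freq_union_le _ _ _).trans (by linarith))
  intro n _ hn
  by_cases hex : ∀ p ∈ Ps, p < y → n % p ≠ c p % p
  · exact Or.inl hex
  · push Not at hex
    obtain ⟨q, hq, hqy, hqc⟩ := hex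
    refine Or.inr ⟨q, hqy.le, ?_⟩
    rw [if_pos hq]
    intro hr
    exact hn ⟨q, hq, hqc, hr⟩

end Pool.Agent.T9h85.DO
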