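import Pool.Agent.T9h85.SG.Digits
import Pool.Agent.T9h85.DO.Sieve

/-! # Integers with restricted digits are uniformly distributed modulo the integers without small
prime factors -/

set_option autoImplicit false

namespace Pool.Agent.T9h85.DO

open Finset Filter Topology
open Pool.Agent.H469R2.NK (e norm_e e_add e_zero sin_ge)
open Pool.Agent.T9h85.SG (place place_succ place_pos place_dvd lt_place low mem_low dig mem_dig
  sum_low_succ card_low_succ norm_dig_le card_dig_le mono_low Digs upTo mem_upTo digs_iff)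

/-- the digit conditions -/
structure Thin (b : ℕ → ℕ) (D : ℕ → Set ℕ) (β : ℕ) : Prop where
  two : ∀ j, 2 ≤ b j
  le : ∀ j, b j ≤ β
  ne : ∀ j, ∃ d ∈ D j, d < b j
  act : ∀ J, ∃ j, J ≤ j ∧ ∃ d ∈ D j, ∃ d' ∈ D j, d < d' ∧ d' < b j

theorem Thin.low_pos {b : ℕ → ℕ} {D : ℕ → Set ℕ} {β : ℕ} (h : Thin b D β) (k : ℕ) :
    0 < (low b D k).card := by
  induction k with
  | zero =>
    rw [card_pos]
    refine ⟨0, mem_low.2 ⟨by simp [place], fun j hj => by omega⟩⟩
  | succ k ih =>
    rw [card_low_succ h.two]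
    obtain ⟨d, hd, hlt⟩ := h.ne k
    exact Nat.mul_pos ih (card_pos.2 ⟨d, mem_dig.2 ⟨hlt, hd⟩⟩)

theorem Thin.infinite {b : ℕ → ℕ} {D : ℕ → Set ℕ} {β : ℕ} (h : Thin b D β) :
    {m | Digs b D m}.Infinite := by
  rw [Set.infinite_iff_exists_gt]
  intro a
  obtain ⟨i, hi, d, -, d', hd', hlt, hlt'⟩ := h.act (a + 1)
  obtain ⟨t, ht⟩ := card_pos.1 (h.low_pos i)
  have ht' := (mem_low.1 ht).1
  have hp := place_pos h.two i
  have hM : place b i ≤ d' * place b i := Nat.le_mul_of_pos_left _ (by omega)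
  refine ⟨t + d' * place b i, (digs_iff h.two ht' (by omega)).2 ⟨ht, fun j hj hle => ?_⟩, ?_⟩
  · rcases Nat.lt_or_ge i j with h1 | h1
    · exfalso
      have h2 := Nat.le_of_dvd (place_pos h.two j) (place_dvd b (show i + 1 ≤ j by omega))
      rw [place_succ, mul_comm] at h2
      have h3 : d' * place b i < b i * place b i := Nat.mul_lt_mul_of_pos_right hlt' hp
      omega
    · have : j = i := by omega
      subst this
      rw [Nat.mul_div_cancel _ hp, Nat.mod_eq_of_lt hlt']
      exact hd'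
  · have := lt_place h.two i
    omega

theorem Thin.card_large {b : ℕ → ℕ} {D : ℕ → Set ℕ} {β : ℕ} (h : Thin b D β) (R : ℕ) :
    ∀ᶠ X : ℕ in atTop, R ≤ (upTo b D X).card := by
  obtain ⟨F, hF, hc⟩ := h.infinite.exists_subset_card_eq R
  filter_upwards [eventually_ge_atTop (F.sup id)] with X hX
  rw [← hc]
  refine card_le_card fun m hm => mem_upTo.2 ⟨?_, hF hm⟩
  exact (le_sup (f := id) hm).trans hX

theorem exists_small {b : ℕ → ℕ} {D : ℕ → Set ℕ} {β : ℕ} (hb : ∀ j, 2 ≤ b j)
    (hle : ∀ j, b j ≤ β) {θ δ : ℝ} (hδ0 : 0 < δ) (hδ1 : δ ≤ 1 / 2)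
    (hfar : ∀ J : ℕ, ∃ j, J ≤ j ∧ ∃ d ∈ dig b D j, ∃ d' ∈ dig b D j, d < d' ∧
      ∀ n : ℤ, δ ≤ |θ * ((d' - d : ℕ) : ℝ) * (place b j : ℝ) - n|) {ε : ℝ} (hε : 0 < ε) :
    ∃ k, ‖∑ t ∈ low b D k, e (θ * t)‖ ≤ ε * (low b D k).card := by
  have hβ2 : 2 ≤ β := (hb 0).trans (hle 0)
  have hβ0 : (0 : ℝ) < β := by
    have : 0 < β := by omega
    exact_mod_cast this
  set ρ : ℝ := 1 - 4 * δ ^ 2 / β with hρ
  have h4 : 4 * δ ^ 2 ≤ 1 := by nlinarith
  have h5 : 4 * δ ^ 2 / β ≤ 1 := by
    rw [div_le_one hβ0]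
    have : (2 : ℝ) ≤ β := by exact_mod_cast hβ2
    linarith
  have hρ0 : 0 ≤ ρ := by
    rw [hρ]
    linarith
  have hρ1 : ρ < 1 := by
    rw [hρ]
    have : 0 < 4 * δ ^ 2 / β := by positivity
    linarith
  have key : ∀ N : ℕ, ∃ k, ‖∑ t ∈ low b D k, e (θ * t)‖ ≤ ρ ^ N * (low b D k).card := by
    intro N
    induction N with
    | zero =>
      refine ⟨0, (norm_sum_le _ _).trans ?_⟩
      simp only [norm_e, sum_const, nsmul_eq_mul, mul_one, pow_zero, one_mul]
      exact le_rfl
    | succ N ih =>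
      obtain ⟨k, hk⟩ := ih
      obtain ⟨j, hj, d, hd, d', hd', hlt, hf⟩ := hfar k
      refine ⟨j + 1, ?_⟩
      have h6 := mono_low hb hj hk
      have h7 := norm_dig_le hδ0 hd hd' hlt hf
      have h8 : ((dig b D j).card : ℝ) - 4 * δ ^ 2 ≤ ρ * (dig b D j).card := by
        have h9 : ((dig b D j).card : ℝ) ≤ β := by
          exact_mod_cast (card_dig_le b D j).trans (hle j)
        have h10 : 4 * δ ^ 2 / β * (dig b D j).card ≤ 4 * δ ^ 2 / β * β := by gcongr
        rw [div_mul_cancel₀ _ hβ0.ne'] at h10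
        rw [hρ]
        linarith
      rw [sum_low_succ hb, norm_mul, card_low_succ hb, pow_succ, Nat.cast_mul (low b D j).card]
      refine (mul_le_mul h6 (h7.trans h8) (norm_nonneg _) ((norm_nonneg _).trans h6)).trans ?_
      exact le_of_eq (by ring)
  obtain ⟨N, hN⟩ := exists_pow_lt_of_lt_one hε hρ1
  obtain ⟨k, hk⟩ := key N
  refine ⟨k, hk.trans ?_⟩
  gcongr

theorem small_of_low {b : ℕ → ℕ} {D : ℕ → Set ℕ} (hb : ∀ j, 2 ≤ b j)
    (hlarge : ∀ R : ℕ, ∀ᶠ X : ℕ in atTop, R ≤ (upTo b D X).card) {θ ε : ℝ} (hε : 0 < ε) {k : ℕ}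
    (hk : ‖∑ t ∈ low b D k, e (θ * t)‖ ≤ ε / 2 * (low b D k).card) :
    ∀ᶠ X : ℕ in atTop, ‖∑ m ∈ upTo b D X, e (θ * m)‖ ≤ ε * (upTo b D X).card := by
  classical
  set M := place b k with hM
  have hM0 : 0 < M := place_pos hb k
  obtain ⟨R, hR⟩ := exists_nat_ge (2 * M / (ε / 2))
  filter_upwards [hlarge R] with X hX
  have hfib : ∀ q ∈ range (X / M + 1), ‖∑ m ∈ (upTo b D X).filter (fun m => m / M = q), e (θ * m)‖ ≤
      ε / 2 * ((upTo b D X).filter (fun m => m / M = q)).card + (if q = 0 then (M : ℝ) else 0) +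
        (if q = X / M then (M : ℝ) else 0) := by
    intro q hq
    rw [mem_range] at hq
    set F := (upTo b D X).filter (fun m => m / M = q) with hF
    have htriv : ‖∑ m ∈ F, e (θ * m)‖ ≤ M := by
      have h1 : F ⊆ Ico (q * M) (q * M + M) := by
        intro m hm
        rw [hF, mem_filter] at hm
        rw [mem_Ico]
        have h2 := Nat.div_add_mod m M
        have h3 := Nat.mod_lt m hM0
        rw [hm.2, mul_comm] at h2
        omega
      have h2 := card_le_card h1
      rw [Nat.card_Ico, Nat.add_sub_cancel_left] at h2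
      refine (norm_sum_le _ _).trans ?_
      simp only [norm_e, sum_const, nsmul_eq_mul, mul_one]
      exact_mod_cast h2
    have hpos : 0 ≤ ε / 2 * (F.card : ℝ) := by positivity
    have hMR : (0 : ℝ) ≤ M := Nat.cast_nonneg _
    by_cases h0 : q = 0
    · rw [if_pos h0]
      have : 0 ≤ (if q = X / M then (M : ℝ) else 0) := by split_ifs <;> simp
      linarith
    · rw [if_neg h0]
      by_cases hX' : q = X / M
      · rw [if_pos hX']
        linarith
      · rw [if_neg hX', add_zero, add_zero]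
        have hq1 : 1 ≤ q := by omega
        have hqX : q * M + M ≤ X := by
          have h2 : q + 1 ≤ X / M := by omega
          have h3 := (Nat.le_div_iff_mul_le hM0).1 h2
          calc q * M + M = (q + 1) * M := by ring
            _ ≤ X := h3
        by_cases hV : ∀ j, k ≤ j → place b j ≤ q * M → q * M / place b j % b j ∈ D j
        · have h1 : F = (low b D k).image fun t => t + q * M := by
            ext m
            rw [hF, mem_filter, mem_upTo, mem_image]
            constructor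
            · rintro ⟨⟨-, h2⟩, h3⟩
              have h4 : m = m % M + q * M := by
                have := Nat.div_add_mod m M
                rw [h3, mul_comm] at this
                omega
              rw [h4] at h2
              exact ⟨m % M, ((digs_iff hb (Nat.mod_lt _ hM0) hq1).1 h2).1, h4.symm⟩
            · rintro ⟨t, ht, rfl⟩
              have ht' := (mem_low.1 ht).1
              refine ⟨⟨by omega, (digs_iff hb ht' hq1).2 ⟨ht, hV⟩⟩, ?_⟩
              rw [Nat.add_mul_div_right _ _ hM0, Nat.div_eq_of_lt ht', zero_add]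
          have hinj : Set.InjOn (fun t => t + q * M) (low b D k : Set ℕ) := fun x _ y _ hxy => by
            simpa using hxy
          rw [h1, sum_image hinj, card_image_of_injOn hinj]
          have h2 : ∀ t : ℕ, e (θ * ((t + q * M : ℕ) : ℝ)) = e (θ * t) * e (θ * (q * M : ℕ)) := by
            intro t
            rw [← e_add]
            congr 1
            push_cast
            ring
          simp only [h2]
          rw [← sum_mul, norm_mul, norm_e, mul_one]
          exact hk
        · have h1 : F = ∅ := by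
            rw [eq_empty_iff_forall_notMem]
            intro m hm
            rw [hF, mem_filter, mem_upTo] at hm
            have h4 : m = m % M + q * M := by
              have := Nat.div_add_mod m M
              rw [hm.2, mul_comm] at this
              omega
            have h2 := hm.1.2
            rw [h4] at h2
            exact hV ((digs_iff hb (Nat.mod_lt _ hM0) hq1).1 h2).2
          rw [h1]
          simp
  have hmaps : ∀ m ∈ upTo b D X, m / M ∈ range (X / M + 1) := by
    intro m hm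
    rw [mem_range, Nat.lt_succ_iff]
    exact Nat.div_le_div_right (mem_upTo.1 hm).1
  rw [← sum_fiberwise_of_maps_to hmaps]
  have hcard : ((upTo b D X).card : ℝ) =
      ∑ q ∈ range (X / M + 1), (((upTo b D X).filter (fun m => m / M = q)).card : ℝ) := by
    rw [card_eq_sum_card_fiberwise hmaps]
    push_cast
    rfl
  refine (norm_sum_le _ _).trans ((sum_le_sum hfib).trans ?_)
  rw [sum_add_distrib, sum_add_distrib, ← mul_sum, ← hcard, sum_ite_eq', sum_ite_eq']
  rw [if_pos (by simp), if_pos (by simp)]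
  have h1 : (R : ℝ) ≤ (upTo b D X).card := by exact_mod_cast hX
  have h2 := hR.trans h1
  rw [div_le_iff₀ (by positivity)] at h2
  linarith

/-! ## Rational frequencies -/

theorem coprime_place {b : ℕ → ℕ} {D : ℕ → Set ℕ} {β : ℕ} (h : Thin b D β) {q : ℕ}
    (hq : q.Coprime β.factorial) (j : ℕ) : q.Coprime (place b j) := by
  unfold place
  refine Nat.Coprime.prod_right fun i _ => ?_
  have h1 : b i ∣ β.factorial := Nat.dvd_factorial (by have := h.two i; omega) (h.le i)
  exact Nat.Coprime.coprime_dvd_right h1 hq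

theorem Thin.small {b : ℕ → ℕ} {D : ℕ → Set ℕ} {β : ℕ} (h : Thin b D β) {q a : ℕ}
    (hq1 : 1 ≤ q) (hq : q.Coprime β.factorial) (ha : ¬ q ∣ a) {ε : ℝ} (hε : 0 < ε) :
    ∀ᶠ X : ℕ in atTop, ‖∑ m ∈ upTo b D X, e ((a : ℝ) / q * m)‖ ≤ ε * (upTo b D X).card := by
  have hq2 : 2 ≤ q := by
    by_contra hlt
    have : q = 1 := by omega
    exact ha (this ▸ one_dvd a)
  have hqR : (2 : ℝ) ≤ q := by exact_mod_cast hq2
  have hq0 : (0 : ℝ) < q := by linarith
  obtain ⟨k, hk⟩ := exists_small (D := D) h.two h.le (θ := (a : ℝ) / q) (δ := 1 / (q : ℝ))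
    (by positivity) (one_div_le_one_div_of_le (by norm_num) hqR) (fun J => by
      obtain ⟨j, hj, d, hd, d', hd', hlt, hlt'⟩ := h.act J
      refine ⟨j, hj, d, mem_dig.2 ⟨by omega, hd⟩, d', mem_dig.2 ⟨hlt', hd'⟩, hlt, fun n => ?_⟩
      have h1 : (a : ℝ) / q * ((d' - d : ℕ) : ℝ) * (place b j : ℝ) - n =
          (((a * (d' - d) * place b j : ℕ) : ℤ) - n * q : ℤ) / (q : ℝ) := by
        push_cast
        field_simp
      rw [h1, abs_div, abs_of_pos hq0]
      gcongr
      have h2 : (((a * (d' - d) * place b j : ℕ) : ℤ) - n * q : ℤ) ≠ 0 := by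
        intro h0
        have h3 : (q : ℤ) ∣ ((a * (d' - d) * place b j : ℕ) : ℤ) :=
          ⟨n, by rw [mul_comm (q : ℤ) n]; exact sub_eq_zero.1 h0⟩
        have h4 : q ∣ a * (d' - d) * place b j := by exact_mod_cast h3
        have h5 := (coprime_place h hq j).dvd_of_dvd_mul_right h4
        have h6 : q.Coprime (d' - d) := by
          have h7 : (d' - d) ∣ β.factorial :=
            Nat.dvd_factorial (by omega) (by have := h.le j; omega)
          exact Nat.Coprime.coprime_dvd_right h7 hq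
        exact ha (h6.dvd_of_dvd_mul_right h5)
      have h3 : (1 : ℤ) ≤ |((a * (d' - d) * place b j : ℕ) : ℤ) - n * q| := Int.one_le_abs h2
      have h4 : ((1 : ℤ) : ℝ) ≤ ((|((a * (d' - d) * place b j : ℕ) : ℤ) - n * q| : ℤ) : ℝ) :=
        Int.cast_le.2 h3
      rw [Int.cast_abs, Int.cast_one] at h4
      exact h4) (half_pos hε)
  exact small_of_low h.two h.card_large hε hk

theorem e_int (n : ℤ) : e (n : ℝ) = 1 := by
  unfold Pool.Agent.H469R2.NK.e
  rw [Complex.exp_eq_one_iff]
  exact ⟨n, by push_cast; ring⟩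

theorem e_nmul (x : ℝ) (k : ℕ) : e ((k : ℝ) * x) = e x ^ k := by
  unfold Pool.Agent.H469R2.NK.e
  rw [← Complex.exp_nat_mul]
  congr 1
  push_cast
  ring

theorem e_eq_one {x : ℝ} (h : e x = 1) : ∃ n : ℤ, x = n := by
  unfold Pool.Agent.H469R2.NK.e at h
  rw [Complex.exp_eq_one_iff] at h
  obtain ⟨n, hn⟩ := h
  refine ⟨n, ?_⟩
  have h1 : ((2 * Real.pi * x : ℝ) : ℂ) * Complex.I = ((2 * Real.pi * n : ℝ) : ℂ) * Complex.I := by
    rw [hn]
    push_cast
    ring
  have h2 := mul_right_cancel₀ Complex.I_ne_zero h1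
  have h3 : 2 * Real.pi * x = 2 * Real.pi * n := by exact_mod_cast h2
  exact mul_left_cancel₀ (by positivity) h3

/-- orthogonality -/
theorem ortho {q : ℕ} (hq : 1 ≤ q) (n ρ : ℕ) :
    ∑ a ∈ range q, e ((a : ℝ) / q * n) * e (-((a : ℝ) / q * ρ)) =
      if n % q = ρ % q then (q : ℂ) else 0 := by
  have hq0 : (q : ℝ) ≠ 0 := by
    have : 0 < q := hq
    exact_mod_cast this.ne'
  set x : ℝ := ((n : ℝ) - ρ) / q with hx
  have h1 : ∀ a ∈ range q, e ((a : ℝ) / q * n) * e (-((a : ℝ) / q * ρ)) = e x ^ a := by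
    intro a _
    rw [← e_add, ← e_nmul]
    congr 1
    rw [hx]
    ring
  rw [sum_congr rfl h1]
  split_ifs with h
  · have h2 : e x = 1 := by
      have h3 : (q : ℤ) ∣ (n : ℤ) - ρ := by
        have h4 : (ρ : ℤ) ≡ n [ZMOD q] := by
          rw [Int.natCast_modEq_iff]
          exact h.symm
        exact h4.dvd
      obtain ⟨c, hc⟩ := h3
      have h4 : x = (c : ℤ) := by
        rw [hx, div_eq_iff hq0]
        have : ((n : ℤ) - ρ : ℤ) = ((c * q : ℤ)) := by rw [hc]; ring
        exact_mod_cast this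
      rw [h4, e_int]
    rw [h2]
    simp
  · have h2 : e x ≠ 1 := by
      intro h0
      obtain ⟨c, hc⟩ := e_eq_one h0
      apply h
      rw [hx, div_eq_iff hq0] at hc
      have h3 : (n : ℤ) - ρ = c * q := by exact_mod_cast hc
      have h4 : (ρ : ℤ) ≡ n [ZMOD q] := by
        apply Int.modEq_iff_dvd.2
        exact ⟨c, by rw [h3]; ring⟩
      rw [Int.natCast_modEq_iff] at h4
      exact h4.symm
    have h3 : e x ^ q = 1 := by
      rw [← e_nmul]
      have : (q : ℝ) * x = ((n - ρ : ℤ) : ℝ) := by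
        rw [hx]
        push_cast
        field_simp
      rw [this, e_int]
    rw [geom_sum_eq h2, h3, sub_self, zero_div]

theorem up_digs (b : ℕ → ℕ) (D : ℕ → Set ℕ) (X : ℕ) : up {n | Digs b D n} X = upTo b D X := by
  ext n
  rw [mem_up, mem_upTo]
  rfl

/-- **integers with restricted digits are uniformly distributed modulo the integers without small
prime factors** -/
theorem Thin.eqW {b : ℕ → ℕ} {D : ℕ → Set ℕ} {β : ℕ} (h : Thin b D β) :
    EqW β.factorial {n | Digs b D n} := by
  classical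
  intro q hq1 hq ρ
  have hqR : (0 : ℝ) < q := by exact_mod_cast hq1
  have hne : ∀ᶠ X : ℕ in atTop, 1 ≤ (upTo b D X).card := h.card_large 1
  rw [Metric.tendsto_nhds]
  intro ε hε
  have hall : ∀ᶠ X : ℕ in atTop, ∀ a ∈ range (q - 1),
      ‖∑ m ∈ upTo b D X, e (((a + 1 : ℕ) : ℝ) / q * m)‖ ≤ ε / 2 * (upTo b D X).card := by
    rw [eventually_all_finset]
    intro a ha
    rw [mem_range] at ha
    exact h.small hq1 hq (fun hdvd => by
      have := Nat.le_of_dvd (by omega) hdvd
      omega) (by positivity)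
  filter_upwards [hne, hall] with X hX hs
  rw [up_digs]
  set S := upTo b D X with hS
  have hK : (0 : ℝ) < S.card := by
    have : 0 < S.card := hX
    exact_mod_cast this
  set C : ℕ := (S.filter fun n => n % q = ρ % q).card with hC
  have hfreq : freq S {n | n % q = ρ % q} = (C : ℝ) / S.card := by
    unfold freq
    congr 2
    rw [hC]
    congr 1
    ext t
    simp only [mem_filter, Set.mem_ofPred_eq]
  have hsum : ((q : ℂ) * C) = ∑ a ∈ range q, (∑ n ∈ S, e ((a : ℝ) / q * n)) *
      e (-((a : ℝ) / q * ρ)) := by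
    have h1 : ((q : ℂ) * C) = ∑ n ∈ S, if n % q = ρ % q then (q : ℂ) else 0 := by
      rw [← sum_filter, sum_const, nsmul_eq_mul, mul_comm]
    rw [h1]
    simp only [sum_mul]
    rw [sum_comm]
    exact sum_congr rfl fun n _ => (ortho hq1 n ρ).symm
  have hbound : ‖(q : ℂ) * C - S.card‖ ≤ q * (ε / 2 * S.card) := by
    have h2 : ∑ a ∈ range q, (∑ n ∈ S, e ((a : ℝ) / q * n)) * e (-((a : ℝ) / q * ρ)) =
        ∑ a ∈ range (q - 1), (∑ n ∈ S, e (((a + 1 : ℕ) : ℝ) / q * n)) *
          e (-(((a + 1 : ℕ) : ℝ) / q * ρ)) + S.card := by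
      obtain ⟨q', hq'⟩ : ∃ q', q = q' + 1 := ⟨q - 1, by omega⟩
      have h5 : range q = range (q' + 1) := by rw [hq']
      have h6 : q - 1 = q' := by omega
      rw [h5, sum_range_succ', h6]
      congr 1
      simp only [Nat.cast_zero, zero_div, zero_mul, neg_zero, e_zero, mul_one, sum_const,
        nsmul_eq_mul]
    rw [hsum, h2, add_sub_cancel_right]
    refine (norm_sum_le _ _).trans ?_
    have h3 : ∀ a ∈ range (q - 1), ‖(∑ n ∈ S, e (((a + 1 : ℕ) : ℝ) / q * n)) *
        e (-(((a + 1 : ℕ) : ℝ) / q * ρ))‖ ≤ ε / 2 * S.card := by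
      intro a ha
      rw [norm_mul, norm_e, mul_one]
      exact hs a ha
    refine (sum_le_sum h3).trans ?_
    rw [sum_const, card_range, nsmul_eq_mul]
    gcongr
    exact Nat.sub_le _ _
  have hreal : |(q : ℝ) * C - S.card| ≤ q * (ε / 2 * S.card) := by
    have h7 := Complex.norm_real ((q : ℝ) * C - S.card)
    rw [Real.norm_eq_abs] at h7
    rw [← h7]
    push_cast
    exact hbound
  rw [hfreq, Real.dist_eq]
  have h4 : (C : ℝ) / S.card - 1 / q = ((q : ℝ) * C - S.card) / (q * S.card) := by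
    field_simp
  rw [h4, abs_div, abs_of_pos (by positivity : (0 : ℝ) < q * S.card), div_lt_iff₀ (by positivity)]
  refine lt_of_le_of_lt hreal ?_
  have : 0 < (q : ℝ) * S.card := by positivity
  nlinarith

end Pool.Agent.T9h85.DO
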