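import Pool.Agent.T9h85.DO.Orders
import Pool.Agent.T9h85.DO.Dig

/-! # The final forms -/

set_option autoImplicit false

namespace Pool.Agent.T9h85.DO

open Finset Filter Topology
open Pool.Agent.H771R2.SingerDS (HasSinger)
open Pool.Agent.T9h85.BR (Liftable)
open Pool.Agent.T9h85.SG (place Digs)

theorem ncard_up (A : Set ℕ) (X : ℕ) : {n : ℕ | n ≤ X ∧ n ∈ A}.ncard = (up A X).card := by
  rw [← Set.ncard_coe_finset]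
  congr 1
  ext n
  rw [mem_coe, mem_up]
  rfl

open Classical in
theorem ncard_filter (A B : Set ℕ) (X : ℕ) :
    {n : ℕ | n ≤ X ∧ n ∈ A ∧ n ∈ B}.ncard = ((up A X).filter fun n => n ∈ B).card := by
  rw [← Set.ncard_coe_finset]
  congr 1
  ext n
  rw [mem_coe, mem_filter, mem_up, and_assoc]
  rfl

theorem freq_ncard (A B : Set ℕ) (X : ℕ) : freq (up A X) B =
    ({n : ℕ | n ≤ X ∧ n ∈ A ∧ n ∈ B}.ncard : ℝ) / {n : ℕ | n ≤ X ∧ n ∈ A}.ncard := by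
  classical
  rw [ncard_up, ncard_filter]
  rfl

/-- uniformly distributed modulo the integers coprime to `W` -/
def UD (W : ℕ) (A : Set ℕ) : Prop :=
  ∀ q : ℕ, 1 ≤ q → q.Coprime W → ∀ ρ : ℕ, Tendsto (fun X : ℕ =>
    ({n : ℕ | n ≤ X ∧ n ∈ A ∧ n % q = ρ % q}.ncard : ℝ) / {n : ℕ | n ≤ X ∧ n ∈ A}.ncard)
    atTop (𝓝 (1 / (q : ℝ)))

theorem ud_iff (W : ℕ) (A : Set ℕ) : UD W A ↔ EqW W A := by
  unfold UD EqW
  refine forall_congr' fun q => forall_congr' fun _ => forall_congr' fun _ =>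
    forall_congr' fun ρ => ?_
  have : ∀ X, freq (up A X) {n | n % q = ρ % q} =
      ({n : ℕ | n ≤ X ∧ n ∈ A ∧ n % q = ρ % q}.ncard : ℝ) / {n : ℕ | n ≤ X ∧ n ∈ A}.ncard :=
    fun X => freq_ncard A _ X
  simp only [this]

/-- density zero relative to `A` -/
def NI (A E : Set ℕ) : Prop := ∀ ε : ℝ, 0 < ε → ∃ X₀ : ℕ, ∀ X : ℕ, X₀ ≤ X →
  ({n : ℕ | n ≤ X ∧ n ∈ A ∧ n ∈ E}.ncard : ℝ) ≤ ε * {n : ℕ | n ≤ X ∧ n ∈ A}.ncard

theorem ni_of_null {A E : Set ℕ} (h : Null A E) : NI A E := by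
  classical
  intro ε hε
  obtain ⟨X₀, hX₀⟩ := eventually_atTop.1 (h ε hε)
  refine ⟨X₀, fun X hX => ?_⟩
  have h1 := hX₀ X hX
  rw [freq_ncard] at h1
  rcases Nat.eq_zero_or_pos ({n : ℕ | n ≤ X ∧ n ∈ A}.ncard) with h0 | h0
  · have h2 : {n : ℕ | n ≤ X ∧ n ∈ A ∧ n ∈ E}.ncard ≤ {n : ℕ | n ≤ X ∧ n ∈ A}.ncard := by
      rw [ncard_up, ncard_filter]
      exact card_filter_le _ _
    rw [h0] at h2
    rw [h0, Nat.le_zero.1 h2]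
    simp
  · rwa [div_le_iff₀ (by exact_mod_cast h0)] at h1

theorem final {W : ℕ} {A : Set ℕ} (hW : 1 ≤ W) (hA : UD W A) :
    ∃ E : Set ℕ, NI A E ∧
      (∀ K i : ℕ, Odd i → {n | n ∈ A ∧ n ∉ E ∧ 2 ≤ n ∧ ∃ m, Odd m ∧ 3 ≤ m ∧ m.minFac ≤ K ∧
        HasSinger (n ^ i) m}.Finite) ∧
      ∀ i : ℕ, Odd i → {n | n ∈ A ∧ n ∉ E ∧ 2 ≤ n ∧ ∃ m, Even m ∧ 4 ≤ m ∧
        Liftable (n ^ i) m}.Finite := by
  obtain ⟨E, h1, h2, h3⟩ := orders_main hW ((ud_iff W A).1 hA)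
  exact ⟨E, ni_of_null h1, h2, h3⟩

theorem digits {b : ℕ → ℕ} {D : ℕ → Set ℕ} {β : ℕ} (h : Thin b D β) :
    {n | Digs b D n}.Infinite ∧ UD β.factorial {n | Digs b D n} :=
  ⟨h.infinite, (ud_iff _ _).2 h.eqW⟩

end Pool.Agent.T9h85.DO
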