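import Pool.Agent.T9h85.DO.Sieve
import Pool.Agent.T9h85.BR.Rds
import Pool.Agent.H771R2.SingerDS
import Pool.Agent.TH888.B1.Div

/-! # Orders of difference sets with Singer parameters in sets uniformly distributed modulo the
integers coprime to `W` -/

set_option autoImplicit false

namespace Pool.Agent.T9h85.DO

open Finset Filter Topology
open Pool.Agent.H771R2.Dens (Big big_ap)
open Pool.Agent.H771R2.SingerDS (HasSinger odd_geom exists_nonres)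
open Pool.Agent.H771R2.Lander (no_difference_set)
open Pool.Agent.T9h85.BR (Liftable lift_data rds_closed)

theorem not_summable_of_big {P : ℕ → Prop} (h : Big P) :
    ¬ Summable (fun n : ℕ => {p : ℕ | p.Prime ∧ P p}.indicator (fun n : ℕ => (1 : ℝ) / n) n) := by
  intro hs
  obtain ⟨F, hF, hB⟩ := h ((∑' n : ℕ, {p : ℕ | p.Prime ∧ P p}.indicator
    (fun n : ℕ => (1 : ℝ) / n) n) + 1)
  have h1 := hs.sum_le_tsum F (fun n _ => Set.indicator_nonneg (fun _ _ => by positivity) _)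
  have h2 : ∑ n ∈ F, {p : ℕ | p.Prime ∧ P p}.indicator (fun n : ℕ => (1 : ℝ) / n) n =
      ∑ p ∈ F, 1 / (p : ℝ) :=
    Finset.sum_congr rfl fun p hp => Set.indicator_of_mem (by exact hF p hp) _
  rw [h2] at h1
  linarith

/-- the exclusion (copied from `N92.SD.Odd`, `TH66.SG.Odd`) -/
theorem excluded' {n m w r j c n' : ℕ} (hm : Odd m) (hm3 : 3 ≤ m)
    (hn : 2 ≤ n) (h : HasSinger n m) (hw : w.Prime)
    (hwn : (n : ZMod w) ^ m = 1) (hwn1 : (n : ZMod w) ≠ 1) (hr : r.Prime)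
    (hc : Odd c) (hn' : n = r ^ c * n') (hrn : ¬ r ∣ n') (hrw : (r : ZMod w) ^ j = -1) : False := by
  obtain ⟨G, hG, hGf, hGd, D, h1, h2, h3⟩ := h
  have : Fact w.Prime := ⟨hw⟩
  have hn1 : 0 < n - 1 := by omega
  -- sizes
  have hgeom : ∀ j : ℕ, (∑ i ∈ Finset.range j, n ^ i) * (n - 1) = n ^ j - 1 := by
    intro j
    exact Nat.geomSum_eq (by omega) j ▸ (Nat.div_mul_cancel (by
      simpa using Nat.sub_dvd_pow_sub_pow n 1 j))
  have hv : Fintype.card G = ∑ i ∈ Finset.range m, n ^ i :=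
    Nat.eq_of_mul_eq_mul_right hn1 (h1.trans (hgeom m).symm)
  have hk : D.card = ∑ i ∈ Finset.range (m - 1), n ^ i :=
    Nat.eq_of_mul_eq_mul_right hn1 (h2.trans (hgeom (m - 1)).symm)
  have hlam : ∀ g : G, g ≠ 1 → ((D ×ˢ D).filter (fun p : G × G => p.1 * p.2⁻¹ = g)).card =
      ∑ i ∈ Finset.range (m - 2), n ^ i := fun g hg =>
    Nat.eq_of_mul_eq_mul_right hn1 ((h3 g hg).trans (hgeom (m - 2)).symm)
  -- `v` is odd
  have hodd : Odd (Fintype.card G) := by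
    obtain ⟨j, rfl⟩ := hm
    rw [hv]
    exact odd_geom n j
  -- `w ∣ v`
  have hqv : w ∣ Fintype.card G := by
    rw [← ZMod.natCast_eq_zero_iff]
    have h4 : ((Fintype.card G * (n - 1) : ℕ) : ZMod w) = 0 := by
      rw [h1, Nat.cast_sub (Nat.one_le_pow _ _ (by omega))]
      push_cast
      rw [hwn, sub_self]
    rw [Nat.cast_mul] at h4
    rcases mul_eq_zero.1 h4 with h5 | h5
    · exact h5
    · exfalso
      rw [Nat.cast_sub (by omega), sub_eq_zero] at h5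
      exact hwn1 (by simpa using h5)
  have hru : ¬ (r : ℤ) ∣ ((n' : ℤ) ^ (m - 2)) := by
    intro h4
    have h5 := (Nat.prime_iff_prime_int.1 hr).dvd_of_dvd_pow h4
    exact hrn (by exact_mod_cast h5)
  refine no_difference_set D _ _ hk hlam hodd hw hqv hr hrw (a := c * (m - 2)) ?_ hru ?_
  · refine hc.mul ?_
    obtain ⟨j, rfl⟩ := hm
    exact ⟨j - 1, by omega⟩
  · have h4 : m - 1 = (m - 2) + 1 := by omega
    rw [h4, Finset.sum_range_succ]
    push_cast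
    rw [hn']
    push_cast
    ring

/-- the exclusion for liftable sets (copied from `R116.AF.exO_lift`) -/
theorem excluded_lift {n m q r j a u : ℕ} (hn : 2 ≤ n) (hm : Even m) (hm4 : 4 ≤ m)
    (h : Liftable n m) (hq : q.Prime) (hq2 : 2 < q) (hqn : q ∣ n - 1) (hr : r.Prime)
    (hj : (r : ZMod q) ^ j = -1) (ha : Odd a) (hu : ¬ r ∣ u) (hnu : n = r ^ a * u) : False := by
  obtain ⟨Q, _, _, _, E, G, _, _, _, ⟨K, hK, hK2, hKo⟩, hE, hL⟩ := h
  obtain ⟨N, D, hN, hG, hNc, hD, h0, h1⟩ := lift_data hn (by omega) hE hL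
  have hodd : Odd (m - 1) := by
    obtain ⟨c, hc⟩ := hm
    exact ⟨c - 1, by omega⟩
  refine rds_closed N K hK2 hKo D (n ^ (m - 2)) h0 h1 hq hq2 (by rw [hNc]; exact hqn) hr hj
    (ha.mul hodd) (u := u ^ (m - 1)) ?_ ?_
  · intro h4
    exact hu (hr.dvd_of_dvd_pow h4)
  · rw [hD, hnu, mul_pow, ← pow_mul]

/-- an element of order `L` modulo `w` -/
theorem exists_zeta (w L : ℕ) [Fact w.Prime] (h : L ∣ w - 1) :
    ∃ ζ : ZMod w, ∀ k : ℕ, ζ ^ k = 1 ↔ L ∣ k := by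
  have hw := (Fact.out : w.Prime)
  have hw1 : w - 1 ≠ 0 := by
    have := hw.two_le
    omega
  obtain ⟨g, hg⟩ := IsCyclic.exists_ofOrder_eq_natCard (α := (ZMod w)ˣ)
  rw [Nat.card_eq_fintype_card, ZMod.card_units] at hg
  have hL : 0 < L := Nat.pos_of_dvd_of_pos h (by omega)
  have hd : (w - 1) / L ∣ w - 1 := Nat.div_dvd_of_dvd h
  have hd0 : (w - 1) / L ≠ 0 := by
    have := Nat.div_mul_cancel h
    intro h0
    rw [h0, zero_mul] at this
    exact hw1 this.symm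
  have ho : orderOf (g ^ ((w - 1) / L)) = L := by
    rw [orderOf_pow_of_dvd hd0 (hg ▸ hd), hg]
    exact Nat.div_div_self h hw1
  refine ⟨((g ^ ((w - 1) / L) : (ZMod w)ˣ) : ZMod w), fun k => ?_⟩
  rw [← Units.val_pow_eq_pow_val, Units.val_eq_one]
  conv_rhs => rw [← ho]
  exact orderOf_dvd_iff_pow_eq_one.symm

theorem mod_iff {q n : ℕ} (hq : q.Prime) (z : ZMod q) : n % q = z.val % q ↔ (n : ZMod q) = z := by
  have : NeZero q := ⟨hq.ne_zero⟩
  have h1 : (n : ZMod q) = ((z.val : ℕ) : ZMod q) ↔ n % q = z.val % q :=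
    ZMod.natCast_eq_natCast_iff' n z.val q
  rw [← h1, ZMod.natCast_zmod_val]

theorem div_coprime {W : ℕ} (hW : 1 ≤ W) {P : ℕ → Prop}
    (h : ¬ Summable (fun n : ℕ => {p : ℕ | p.Prime ∧ P p}.indicator (fun n : ℕ => (1 : ℝ) / n) n)) :
    ¬ Summable (fun n : ℕ => {p : ℕ | (p.Prime ∧ p.Coprime W) ∧ P p}.indicator
      (fun n : ℕ => (1 : ℝ) / n) n) := by
  refine Pool.Agent.TH888.B1.diverges_mono ?_
    (Pool.Agent.TH888.B1.diverges_diff (Set.finite_Iic W) h)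
  rintro q ⟨⟨hq, hq1⟩, hq2⟩
  refine ⟨⟨hq, ?_⟩, hq1⟩
  rw [Nat.Prime.coprime_iff_not_dvd hq]
  intro hdvd
  exact hq2 (Nat.le_of_dvd hW hdvd)

variable {W : ℕ} {A : Set ℕ}

/-- the bad orders, odd dimension -/
def BadO (i l : ℕ) : Set ℕ := {n | 2 ≤ n ∧ ∃ m, Odd m ∧ 3 ≤ m ∧ l ∣ m ∧ HasSinger (n ^ i) m}

/-- the bad orders, even dimension -/
def BadE (i : ℕ) : Set ℕ := {n | 2 ≤ n ∧ ∃ m, Even m ∧ 4 ≤ m ∧ Liftable (n ^ i) m}

theorem badO_null (hW : 1 ≤ W) (hA : EqW W A) {i l : ℕ} (hi : Odd i) (hl : l.Prime) :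
    Null A (BadO i l) := by
  classical
  have hi0 : 0 < i := hi.pos
  set d : ℕ := i * l with hd
  have hd0 : 0 < d := Nat.mul_pos hi0 hl.pos
  have : NeZero d := ⟨hd0.ne'⟩
  set Ps : Set ℕ := {q : ℕ | (q.Prime ∧ q.Coprime W) ∧ (2 < q ∧ (q : ZMod d) = 1)} with hPs
  have hdiv : ¬ Summable (fun n : ℕ => Ps.indicator (fun n : ℕ => (1 : ℝ) / n) n) := by
    apply div_coprime hW
    have h1 := not_summable_of_big (big_ap (m := d) (a := 1) isUnit_one)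
    refine Pool.Agent.TH888.B1.diverges_mono ?_
      (Pool.Agent.TH888.B1.diverges_diff (Set.finite_Iic 2) h1)
    rintro q ⟨⟨hq, hq1⟩, hq2⟩
    exact ⟨hq, not_le.1 hq2, hq1⟩
  have hz : ∀ q : ℕ, ∃ z : ZMod q, q ∈ Ps → ∀ k : ℕ, z ^ k = 1 ↔ d ∣ k := by
    intro q
    by_cases hq : q ∈ Ps
    · have hF : Fact q.Prime := ⟨hq.1.1⟩
      have hdq : d ∣ q - 1 := by
        rw [← ZMod.natCast_eq_zero_iff, Nat.cast_sub hq.1.1.one_lt.le, hq.2.2]
        simp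
      obtain ⟨ζ, hζ⟩ := exists_zeta q d hdq
      exact ⟨ζ, fun _ => hζ⟩
    · exact ⟨0, fun h => absurd h hq⟩
  choose c hc using hz
  have hn : ∀ q : ℕ, ∃ b : ZMod q, q ∈ Ps → IsUnit b ∧ b ^ ((q - 1) / 2) = -1 := by
    intro q
    by_cases hq : q ∈ Ps
    · obtain ⟨b, hb⟩ := exists_nonres hq.1.1 hq.2.1
      exact ⟨b, fun _ => hb⟩
    · exact ⟨0, fun h => absurd h hq⟩
  choose b hb using hn
  refine (two_stepW hA Ps (fun q hq => hq.1) hdiv (fun q => (c q).val)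
    (fun q => {r : ℕ | (r.Prime ∧ r.Coprime W) ∧ (r : ZMod q) = b q}) (fun q _ r hr => hr.1)
    (fun q hq => by
      have : NeZero q := ⟨hq.1.1.ne_zero⟩
      exact div_coprime hW (not_summable_of_big (big_ap (hb q hq).1)))).mono ?_
  rintro n - ⟨hn2, m, hm, hm3, hlm, hS⟩ ⟨q, hq, hqc, r, ⟨⟨hr, -⟩, hrb⟩, hr1, hr2⟩
  have hF : Fact q.Prime := ⟨hq.1.1⟩
  have hnq : (n : ZMod q) = c q := (mod_iff hq.1.1 (c q)).1 hqc
  obtain ⟨u, hu⟩ := hr1
  have hru : ¬ r ∣ u := by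
    rintro ⟨u', hu'⟩
    exact hr2 ⟨u', by rw [hu, hu']; ring⟩
  refine excluded' (n := n ^ i) (m := m) (w := q) (r := r) (j := (q - 1) / 2) (c := i)
    (n' := u ^ i) hm hm3 (hn2.trans (Nat.le_self_pow hi0.ne' n)) hS hq.1.1 ?_ ?_ hr hi ?_ ?_ ?_
  · push_cast
    rw [hnq, ← pow_mul, hc q hq, hd]
    exact Nat.mul_dvd_mul_left i hlm
  · push_cast
    rw [hnq, Ne, hc q hq, hd]
    intro h
    have h1 := Nat.le_of_dvd hi0 h
    have h2 := hl.two_le
    nlinarith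
  · rw [hu, mul_pow]
  · exact fun h => hru (hr.dvd_of_dvd_pow h)
  · rw [hrb]
    exact (hb q hq).2

theorem badE_null (hW : 1 ≤ W) (hA : EqW W A) {i : ℕ} (hi : Odd i) : Null A (BadE i) := by
  classical
  have hi0 : 0 < i := hi.pos
  set Ps : Set ℕ := {q : ℕ | (q.Prime ∧ q.Coprime W) ∧ 2 < q} with hPs
  have hdiv : ¬ Summable (fun n : ℕ => Ps.indicator (fun n : ℕ => (1 : ℝ) / n) n) := by
    apply div_coprime hW
    have h1 := not_summable_of_big (big_ap (m := 1) (a := 1) isUnit_one)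
    refine Pool.Agent.TH888.B1.diverges_mono ?_
      (Pool.Agent.TH888.B1.diverges_diff (Set.finite_Iic 2) h1)
    rintro q ⟨⟨hq, hq1⟩, hq2⟩
    exact ⟨hq, not_le.1 hq2⟩
  have hn : ∀ q : ℕ, ∃ b : ZMod q, q ∈ Ps → IsUnit b ∧ b ^ ((q - 1) / 2) = -1 := by
    intro q
    by_cases hq : q ∈ Ps
    · obtain ⟨b, hb⟩ := exists_nonres hq.1.1 hq.2
      exact ⟨b, fun _ => hb⟩
    · exact ⟨0, fun h => absurd h hq⟩
  choose b hb using hn
  refine (two_stepW hA Ps (fun q hq => hq.1) hdiv (fun q => 1)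
    (fun q => {r : ℕ | (r.Prime ∧ r.Coprime W) ∧ (r : ZMod q) = b q}) (fun q _ r hr => hr.1)
    (fun q hq => by
      have : NeZero q := ⟨hq.1.1.ne_zero⟩
      exact div_coprime hW (not_summable_of_big (big_ap (hb q hq).1)))).mono ?_
  rintro n - ⟨hn2, m, hm, hm4, hS⟩ ⟨q, hq, hqc, r, ⟨⟨hr, -⟩, hrb⟩, hr1, hr2⟩
  have hF : Fact q.Prime := ⟨hq.1.1⟩
  have hnq : (n : ZMod q) = 1 := by
    have := (ZMod.natCast_eq_natCast_iff' n 1 q).2 hqc
    simpa using this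
  obtain ⟨u, hu⟩ := hr1
  have hru : ¬ r ∣ u := by
    rintro ⟨u', hu'⟩
    exact hr2 ⟨u', by rw [hu, hu']; ring⟩
  refine excluded_lift (n := n ^ i) (m := m) (q := q) (r := r) (j := (q - 1) / 2) (a := i)
    (u := u ^ i) (hn2.trans (Nat.le_self_pow hi0.ne' n)) hm hm4 hS hq.1.1 hq.2 ?_ hr ?_ hi ?_ ?_
  · rw [← ZMod.natCast_eq_zero_iff, Nat.cast_sub (Nat.one_le_pow _ _ (by omega))]
    push_cast
    rw [hnq, one_pow, sub_self]
  · rw [hrb]
    exact (hb q hq).2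
  · exact fun h => hru (hr.dvd_of_dvd_pow h)
  · rw [hu, mul_pow]

/-- **the main theorem** -/
theorem orders_main (hW : 1 ≤ W) (hA : EqW W A) :
    ∃ E : Set ℕ, Null A E ∧
      (∀ K i : ℕ, Odd i → {n | n ∈ A ∧ n ∉ E ∧ 2 ≤ n ∧ ∃ m, Odd m ∧ 3 ≤ m ∧ m.minFac ≤ K ∧
        HasSinger (n ^ i) m}.Finite) ∧
      ∀ i : ℕ, Odd i → {n | n ∈ A ∧ n ∉ E ∧ 2 ≤ n ∧ ∃ m, Even m ∧ 4 ≤ m ∧
        Liftable (n ^ i) m}.Finite := by
  classical
  set B : (ℕ × ℕ) ⊕ ℕ → Set ℕ := fun x => match x with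
    | Sum.inl p => if Odd p.1 ∧ p.2.Prime then BadO p.1 p.2 else ∅
    | Sum.inr i => if Odd i then BadE i else ∅ with hB
  have hBn : ∀ x, Null A (B x) := by
    rintro (⟨i, l⟩ | i)
    · simp only [hB]
      by_cases h : Odd i ∧ l.Prime
      · rw [if_pos h]
        exact badO_null hW hA h.1 h.2
      · rw [if_neg h]
        exact null_empty A
    · simp only [hB]
      by_cases h : Odd i
      · rw [if_pos h]
        exact badE_null hW hA h
      · rw [if_neg h]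
        exact null_empty A
  obtain ⟨E, hE, hfin⟩ := one_null B hBn
  refine ⟨E, hE, fun K i hi => ?_, fun i hi => ?_⟩
  · have h1 : (⋃ l ∈ Set.Iic K, {n | n ∈ A ∧ n ∉ E ∧ n ∈ B (Sum.inl (i, l))}).Finite :=
      (Set.finite_Iic K).biUnion fun l _ => hfin (Sum.inl (i, l))
    refine h1.subset ?_
    rintro n ⟨hnA, hnE, hn2, m, hm, hm3, hmK, hS⟩
    rw [Set.mem_iUnion₂]
    refine ⟨m.minFac, hmK, hnA, hnE, ?_⟩
    have hp : m.minFac.Prime := Nat.minFac_prime (by omega)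
    have : B (Sum.inl (i, m.minFac)) = BadO i m.minFac := if_pos ⟨hi, hp⟩
    rw [this]
    exact ⟨hn2, m, hm, hm3, Nat.minFac_dvd m, hS⟩
  · refine (hfin (Sum.inr i)).subset ?_
    rintro n ⟨hnA, hnE, hn2, hS⟩
    refine ⟨hnA, hnE, ?_⟩
    have : B (Sum.inr i) = BadE i := if_pos hi
    rw [this]
    exact ⟨hn2, hS⟩

end Pool.Agent.T9h85.DO
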