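import Mathlib

/-! # A second moment argument, null sets, one null set for countably many -/

set_option autoImplicit false

namespace Pool.Agent.T9h85.DO

open Finset Filter Topology

open Classical in
/-- the proportion of the members of `S` which belong to `A` -/
noncomputable def freq (S : Finset ℕ) (A : Set ℕ) : ℝ :=
  ((S.filter fun t => t ∈ A).card : ℝ) / S.card

theorem freq_eq (S : Finset ℕ) (A : Set ℕ) :
    freq S A = (∑ t ∈ S, A.indicator (fun _ => (1 : ℝ)) t) / S.card := by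
  classical
  unfold freq
  congr 1
  rw [card_filter]
  push_cast
  refine sum_congr rfl fun t _ => ?_
  by_cases h : t ∈ A <;> simp [h]

theorem freq_nonneg (S : Finset ℕ) (A : Set ℕ) : 0 ≤ freq S A := by
  unfold freq
  positivity

theorem freq_mono {S : Finset ℕ} {A B : Set ℕ} (h : ∀ t ∈ S, t ∈ A → t ∈ B) :
    freq S A ≤ freq S B := by
  classical
  unfold freq
  gcongr ?_ / _
  exact_mod_cast card_le_card fun t ht => by
    rw [mem_filter] at ht ⊢
    exact ⟨ht.1, h t ht.1 ht.2⟩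

theorem freq_union_le (S : Finset ℕ) (A B : Set ℕ) : freq S (A ∪ B) ≤ freq S A + freq S B := by
  rw [freq_eq, freq_eq, freq_eq, ← add_div, ← sum_add_distrib]
  gcongr ?_ / _
  refine sum_le_sum fun t _ => ?_
  by_cases ha : t ∈ A <;> by_cases hb : t ∈ B <;> simp [ha, hb]

/-- **the second moment argument** -/
theorem none_small {S : ℕ → Finset ℕ} {ι : Type} [DecidableEq ι] (I : Finset ι) (A : ι → Set ℕ)
    (δ : ι → ℝ)
    (h1 : ∀ i ∈ I, Tendsto (fun N => freq (S N) (A i)) atTop (𝓝 (δ i)))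
    (h2 : ∀ i ∈ I, ∀ j ∈ I, i ≠ j →
      Tendsto (fun N => freq (S N) (A i ∩ A j)) atTop (𝓝 (δ i * δ j)))
    (hne : ∀ᶠ N in atTop, (S N).Nonempty) {ε : ℝ} (hε : 0 < ε) (hμ : 1 / ε < ∑ i ∈ I, δ i) :
    ∀ᶠ N in atTop, freq (S N) {t | ∀ i ∈ I, t ∉ A i} ≤ ε := by
  classical
  set μ := ∑ i ∈ I, δ i with hμd
  have hμ0 : 0 < μ := lt_trans (by positivity) hμ
  set V : ℕ → ℝ := fun N => ∑ i ∈ I, ∑ j ∈ I, freq (S N) (A i ∩ A j) -
    2 * μ * ∑ i ∈ I, freq (S N) (A i) + μ ^ 2 with hV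
  have hlim : Tendsto V atTop (𝓝 (∑ i ∈ I, ∑ j ∈ I, (if i = j then δ i else δ i * δ j) -
      2 * μ * ∑ i ∈ I, δ i + μ ^ 2)) := by
    refine ((tendsto_finsetSum _ fun i hi => tendsto_finsetSum _ fun j hj => ?_).sub
      ((tendsto_finsetSum _ fun i hi => h1 i hi).const_mul _)).add tendsto_const_nhds
    by_cases hij : i = j
    · subst hij
      simp only [if_true, Set.inter_self]
      exact h1 i hi
    · simp only [if_neg hij]
      exact h2 i hi j hj hij
  have hval : ∑ i ∈ I, ∑ j ∈ I, (if i = j then δ i else δ i * δ j) -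
      2 * μ * ∑ i ∈ I, δ i + μ ^ 2 ≤ μ := by
    have e1 : ∀ i ∈ I, ∑ j ∈ I, (if i = j then δ i else δ i * δ j) =
        δ i * μ + (δ i - δ i ^ 2) := by
      intro i hi
      have : ∀ j ∈ I, (if i = j then δ i else δ i * δ j) =
          δ i * δ j + (if i = j then δ i - δ i ^ 2 else 0) := by
        intro j _
        split_ifs with h
        · subst h
          ring
        · ring
      rw [sum_congr rfl this, sum_add_distrib, ← mul_sum, sum_ite_eq, if_pos hi]
    rw [sum_congr rfl e1, sum_add_distrib, ← sum_mul, sum_sub_distrib, ← hμd]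
    have : 0 ≤ ∑ i ∈ I, δ i ^ 2 := sum_nonneg fun i _ => sq_nonneg _
    nlinarith
  have hlt : ∑ i ∈ I, ∑ j ∈ I, (if i = j then δ i else δ i * δ j) -
      2 * μ * ∑ i ∈ I, δ i + μ ^ 2 < ε * μ ^ 2 := by
    refine lt_of_le_of_lt hval ?_
    rw [div_lt_iff₀ hε] at hμ
    nlinarith
  filter_upwards [hlim.eventually_lt_const hlt, hne] with N hN hS
  have hc : (0 : ℝ) < (S N).card := by
    exact_mod_cast card_pos.2 hS
  set f : ℕ → ℝ := fun t => ∑ i ∈ I, (A i).indicator (fun _ => (1 : ℝ)) t with hf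
  have hVeq : V N * (S N).card = ∑ t ∈ S N, (f t - μ) ^ 2 := by
    have e2 : ∀ t, (f t - μ) ^ 2 = ∑ i ∈ I, ∑ j ∈ I, (A i ∩ A j).indicator (fun _ => (1 : ℝ)) t -
        2 * μ * ∑ i ∈ I, (A i).indicator (fun _ => (1 : ℝ)) t + μ ^ 2 := by
      intro t
      have e3 : f t * f t = ∑ i ∈ I, ∑ j ∈ I, (A i ∩ A j).indicator (fun _ => (1 : ℝ)) t := by
        rw [hf]
        simp only
        rw [sum_mul_sum]
        refine sum_congr rfl fun i _ => sum_congr rfl fun j _ => ?_
        by_cases ha : t ∈ A i <;> by_cases hb : t ∈ A j <;> simp [ha, hb]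
      rw [← e3]
      simp only [hf]
      ring
    simp only [e2, sum_add_distrib, sum_sub_distrib, ← mul_sum]
    rw [sum_comm, sum_comm (s := S N) (t := I)]
    have e4 : ∀ B : Set ℕ, ∑ t ∈ S N, B.indicator (fun _ => (1 : ℝ)) t =
        freq (S N) B * (S N).card := by
      intro B
      rw [freq_eq, div_mul_cancel₀ _ hc.ne']
    have e5 : ∀ i ∈ I, ∑ t ∈ S N, ∑ j ∈ I, (A i ∩ A j).indicator (fun _ => (1 : ℝ)) t =
        ∑ j ∈ I, freq (S N) (A i ∩ A j) * (S N).card := by
      intro i _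
      rw [sum_comm]
      exact sum_congr rfl fun j _ => e4 _
    rw [sum_congr rfl e5]
    simp only [e4, hV, ← sum_mul, sum_const, nsmul_eq_mul]
    ring
  set Z : Set ℕ := {t | ∀ i ∈ I, t ∉ A i} with hZ
  have hle : μ ^ 2 * (∑ t ∈ S N, Z.indicator (fun _ => (1 : ℝ)) t) ≤
      ∑ t ∈ S N, (f t - μ) ^ 2 := by
    rw [mul_sum]
    refine sum_le_sum fun t _ => ?_
    by_cases ht : t ∈ Z
    · rw [Set.indicator_of_mem ht, mul_one]
      have h0 : f t = 0 := by
        rw [hf]
        refine sum_eq_zero fun i hi => ?_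
        rw [Set.indicator_of_notMem (ht i hi)]
      rw [h0, zero_sub, neg_sq]
    · rw [Set.indicator_of_notMem ht, mul_zero]
      exact sq_nonneg _
  have hfin : μ ^ 2 * (∑ t ∈ S N, Z.indicator (fun _ => (1 : ℝ)) t) ≤
      μ ^ 2 * (ε * (S N).card) := by
    refine hle.trans ?_
    rw [← hVeq]
    calc V N * (S N).card ≤ ε * μ ^ 2 * (S N).card := mul_le_mul_of_nonneg_right hN.le hc.le
      _ = _ := by ring
  have := le_of_mul_le_mul_left hfin (by positivity)
  rw [freq_eq, div_le_iff₀ hc]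
  exact this

/-! ## Null sets -/

open Classical in
/-- the members of `A` up to `X` -/
noncomputable def up (A : Set ℕ) (X : ℕ) : Finset ℕ := (range (X + 1)).filter fun n => n ∈ A

theorem mem_up {A : Set ℕ} {X n : ℕ} : n ∈ up A X ↔ n ≤ X ∧ n ∈ A := by
  classical
  simp only [up, mem_filter, mem_range, Nat.lt_succ_iff]

/-- density zero relative to `A` -/
def Null (A E : Set ℕ) : Prop := ∀ ε : ℝ, 0 < ε → ∀ᶠ X in atTop, freq (up A X) E ≤ ε

theorem Null.mono {A E F : Set ℕ} (h : Null A F) (hEF : ∀ n ∈ A, n ∈ E → n ∈ F) : Null A E := by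
  intro ε hε
  filter_upwards [h ε hε] with X hX
  exact (freq_mono fun t ht => hEF t (mem_up.1 ht).2).trans hX

theorem null_empty (A : Set ℕ) : Null A ∅ := by
  intro ε hε
  filter_upwards with X
  unfold freq
  simp only [Set.mem_empty_iff_false, filter_false, card_empty, Nat.cast_zero, zero_div]
  exact hε.le

theorem Null.union {A E F : Set ℕ} (hE : Null A E) (hF : Null A F) : Null A (E ∪ F) := by
  intro ε hε
  filter_upwards [hE (ε / 2) (by positivity), hF (ε / 2) (by positivity)] with X h1 h2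
  exact (freq_union_le _ _ _).trans (by linarith)

theorem null_upTo {A : Set ℕ} {B : ℕ → Set ℕ} (h : ∀ k, Null A (B k)) (k : ℕ) :
    Null A {n | ∃ i ≤ k, n ∈ B i} := by
  induction k with
  | zero =>
    refine (h 0).mono ?_
    rintro n - ⟨i, hi, hn⟩
    obtain rfl : i = 0 := by omega
    exact hn
  | succ k ih =>
    refine (ih.union (h (k + 1))).mono ?_
    rintro n - ⟨i, hi, hn⟩
    rcases Nat.lt_or_ge k i with h1 | h1
    · obtain rfl : i = k + 1 := by omega
      exact Or.inr hn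
    · exact Or.inl ⟨i, h1, hn⟩

/-- **one null set** for countably many -/
theorem one_null {A : Set ℕ} {ι : Type} [Countable ι] (B : ι → Set ℕ) (h : ∀ i, Null A (B i)) :
    ∃ E : Set ℕ, Null A E ∧ ∀ i, {n | n ∈ A ∧ n ∉ E ∧ n ∈ B i}.Finite := by
  classical
  rcases isEmpty_or_nonempty ι with hI | hI
  · exact ⟨∅, null_empty A, fun i => (hI.false i).elim⟩
  obtain ⟨g, hg⟩ := exists_surjective_nat ι
  set C : ℕ → Set ℕ := fun k => {n | ∃ i ≤ k, n ∈ B (g i)} with hC
  have hCn : ∀ k, Null A (C k) := by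
    intro k
    exact null_upTo (B := fun k => B (g k)) (fun k => h (g k)) k
  have hCm : ∀ k k' : ℕ, k ≤ k' → C k ⊆ C k' := by
    rintro k k' hk n ⟨i, hi, hn⟩
    exact ⟨i, hi.trans hk, hn⟩
  have hX : ∀ k : ℕ, ∃ X : ℕ, k ≤ X ∧ ∀ Y, X ≤ Y → freq (up A Y) (C k) ≤ 1 / ((k : ℝ) + 1) := by
    intro k
    obtain ⟨X, hX⟩ := eventually_atTop.1 (hCn k (1 / ((k : ℝ) + 1)) (by positivity))
    exact ⟨max k X, le_max_left _ _, fun Y hY => hX Y ((le_max_right _ _).trans hY)⟩
  choose T hTk hT using hX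
  set lev : ℕ → ℕ := fun n => Nat.findGreatest (fun k => T k < n) n with hlev
  refine ⟨{n | (∃ k ≤ n, T k < n) ∧ n ∈ C (lev n)}, fun ε hε => ?_, fun i => ?_⟩
  · obtain ⟨k, hk⟩ := exists_nat_gt (1 / ε)
    filter_upwards [eventually_ge_atTop (T k)] with X hX
    set M := Nat.findGreatest (fun k => T k ≤ X) X with hM
    have hkM : k ≤ M := Nat.le_findGreatest ((hTk k).trans hX) hX
    have hMX : T M ≤ X := Nat.findGreatest_spec (P := fun k => T k ≤ X) ((hTk k).trans hX) hX
    have h1 : freq (up A X) {n | (∃ k ≤ n, T k < n) ∧ n ∈ C (lev n)} ≤ freq (up A X) (C M) := by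
      refine freq_mono ?_
      rintro n hn ⟨⟨i, hi, h2⟩, h3⟩
      have hnX := (mem_up.1 hn).1
      have h4 : T (lev n) < n := Nat.findGreatest_spec (P := fun k => T k < n) hi h2
      have h5 : lev n ≤ M := by
        apply Nat.le_findGreatest
        · exact ((hTk _).trans h4.le).trans hnX
        · exact h4.le.trans hnX
      exact hCm _ _ h5 h3
    refine h1.trans ((hT M X hMX).trans ?_)
    have h6 : (k : ℝ) ≤ M := by exact_mod_cast hkM
    rw [div_le_iff₀ (by positivity)]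
    rw [div_lt_iff₀ hε] at hk
    nlinarith
  · obtain ⟨k, rfl⟩ := hg i
    refine (Set.finite_Iic (T k)).subset ?_
    rintro n ⟨hnA, hnE, hnB⟩
    rw [Set.mem_Iic]
    by_contra hlt
    push Not at hlt
    apply hnE
    have hkl : k ≤ lev n := Nat.le_findGreatest ((hTk k).trans hlt.le) hlt
    exact ⟨⟨k, (hTk k).trans hlt.le, hlt⟩, hCm _ _ hkl ⟨k, le_rfl, hnB⟩⟩

end Pool.Agent.T9h85.DO
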